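import Pool.Agent.Q7.CJ.Stm

/-!
# Project CJ: elementary properties of similarity of ideals (helper224)
-/

set_option autoImplicit false

namespace Pool.Agent.Q224.CJ

open Polynomial
open Pool.Agent.Q7.CJ

variable {p : ℕ} [Fact p.Prime] [Fact (p ≠ 2)] {L : Type} [Field L]

theorem sim_refl (D : L) (I : Ideal (BR p D)) : Sim p D I I :=
  ⟨1, 1, one_ne_zero, one_ne_zero, rfl⟩

theorem sim_symm {D : L} {I J : Ideal (BR p D)} (h : Sim p D I J) : Sim p D J I := by
  obtain ⟨a, b, ha, hb, h⟩ := h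
  exact ⟨b, a, hb, ha, h.symm⟩

theorem sim_trans {D : L} {I J K : Ideal (BR p D)} (h1 : Sim p D I J) (h2 : Sim p D J K) : Sim p D I K := by
  obtain ⟨a, b, ha, hb, h1⟩ := h1
  obtain ⟨c, d, hc, hd, h2⟩ := h2
  refine ⟨c * a, b * d, mul_ne_zero hc ha, mul_ne_zero hb hd, ?_⟩
  rw [← Ideal.span_singleton_mul_span_singleton, ← Ideal.span_singleton_mul_span_singleton, mul_assoc, h1,
    mul_assoc, ← h2, ← mul_assoc, ← mul_assoc, mul_comm (Ideal.span {c})]

theorem sim_mul_left {D : L} {I J : Ideal (BR p D)} (h : Sim p D I J) (K : Ideal (BR p D)) :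
    Sim p D (K * I) (K * J) := by
  obtain ⟨a, b, ha, hb, h⟩ := h
  refine ⟨a, b, ha, hb, ?_⟩
  rw [mul_left_comm, h, mul_left_comm]

theorem sim_mul_right {D : L} {I J : Ideal (BR p D)} (h : Sim p D I J) (K : Ideal (BR p D)) :
    Sim p D (I * K) (J * K) := by
  obtain ⟨a, b, ha, hb, h⟩ := h
  refine ⟨a, b, ha, hb, ?_⟩
  rw [← mul_assoc, h, mul_assoc]

theorem sim_mul {D : L} {I J I' J' : Ideal (BR p D)} (h : Sim p D I J) (h' : Sim p D I' J') :
    Sim p D (I * I') (J * J') := sim_trans (sim_mul_right h I') (sim_mul_left h' J)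

/-- similarity is compatible with injective homomorphisms of rings -/
theorem sim_map {M : Type} [Field M] {D : L} {D' : M} {I J : Ideal (BR p D)} (h : Sim p D I J)
    (f : BR p D →+* BR p D') (hf : Function.Injective f) : Sim p D' (I.map f) (J.map f) := by
  obtain ⟨a, b, ha, hb, h⟩ := h
  refine ⟨f a, f b, (map_ne_zero_iff f hf).2 ha, (map_ne_zero_iff f hf).2 hb, ?_⟩
  have h1 := congrArg (Ideal.map f) h
  rw [Ideal.map_mul, Ideal.map_mul, Ideal.map_span, Ideal.map_span, Set.image_singleton, Set.image_singleton] at h1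
  exact h1

theorem ne_bot_map {R S : Type} [CommRing R] [CommRing S] (f : R →+* S) (hf : Function.Injective f) {I : Ideal R}
    (hI : I ≠ ⊥) : I.map f ≠ ⊥ := by
  intro h
  rw [Ideal.map_eq_bot_iff_of_injective hf] at h
  exact hI h

/-- two homomorphisms of rings agree if they agree at `x` and the polynomials in `y` -/
theorem hom_ext {S : Type} [CommRing S] {D : L} {f g : BR p D →+* S}
    (h1 : f (xx p D) = g (xx p D)) (h2 : ∀ a : L[X], f (AdjoinRoot.of (ff p D) a) = g (AdjoinRoot.of (ff p D) a)) :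
    f = g := by
  apply RingHom.ext
  intro b
  induction b using AdjoinRoot.induction_on with
  | ih q =>
    induction q using Polynomial.induction_on' with
    | add q r hq hr => rw [map_add, map_add, map_add, hq, hr]
    | monomial n a =>
      rw [← Polynomial.C_mul_X_pow_eq_monomial, map_mul, map_pow, AdjoinRoot.mk_C, AdjoinRoot.mk_X, map_mul, map_mul,
        map_pow, map_pow, h2]
      have h3 : f (AdjoinRoot.root (ff p D)) = g (AdjoinRoot.root (ff p D)) := h1
      rw [h3]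

theorem sg_sg (D ζ ζ' : L) (h : ζ ^ p = 1) (h' : ζ' ^ p = 1) (hh : ζ * ζ' = 1) (b : BR p D) :
    sg p D ζ' h' (sg p D ζ h b) = b := by
  have h1 : ((sg p D ζ' h' : BR p D →+* BR p D).comp (sg p D ζ h : BR p D →+* BR p D)) = RingHom.id _ := by
    apply hom_ext
    · change sg p D ζ' h' (sg p D ζ h (xx p D)) = xx p D
      have h2 : sg p D ζ' h' (cc p D ζ) = cc p D ζ := sg_of p D ζ' h' _
      rw [sg_xx, map_mul, h2, sg_xx, ← mul_assoc]
      have h3 : cc p D ζ * cc p D ζ' = 1 := by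
        unfold cc
        rw [← map_mul, ← C_mul, hh, C_1, map_one]
      rw [h3, one_mul]
    · intro a
      change sg p D ζ' h' (sg p D ζ h (AdjoinRoot.of (ff p D) a)) = AdjoinRoot.of (ff p D) a
      rw [sg_of, sg_of]
  exact RingHom.congr_fun h1 b

theorem sg_inj (D ζ : L) (h : ζ ^ p = 1) : Function.Injective (sg p D ζ h) := by
  have hp : 0 < p := (Fact.out (p := p.Prime)).pos
  have hh : ζ * ζ ^ (p - 1) = 1 := by
    rw [← pow_succ', Nat.sub_add_cancel hp, h]
  have h' : (ζ ^ (p - 1)) ^ p = 1 := by rw [← pow_mul, mul_comm, pow_mul, h, one_pow]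
  intro a b hab
  rw [← sg_sg D ζ (ζ ^ (p - 1)) h h' hh a, ← sg_sg D ζ (ζ ^ (p - 1)) h h' hh b, hab]

/-- `σ` and the extension of the field commute -/
theorem bc_sg {M : Type} [Field M] (φ : L →+* M) (D ζ : L) (D' ζ' : M) (hD : φ D = D') (hz : φ ζ = ζ')
    (h : ζ ^ p = 1) (h' : ζ' ^ p = 1) (b : BR p D) :
    bc p φ D D' hD (sg p D ζ h b) = sg p D' ζ' h' (bc p φ D D' hD b) := by
  have h1 : ((bc p φ D D' hD).comp (sg p D ζ h : BR p D →+* BR p D)) =
      ((sg p D' ζ' h' : BR p D' →+* BR p D').comp (bc p φ D D' hD)) := by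
    apply hom_ext
    · change bc p φ D D' hD (sg p D ζ h (xx p D)) = sg p D' ζ' h' (bc p φ D D' hD (xx p D))
      rw [sg_xx, map_mul, bc_cc, bc_xx, sg_xx, hz]
    · intro a
      change bc p φ D D' hD (sg p D ζ h (AdjoinRoot.of (ff p D) a)) =
        sg p D' ζ' h' (bc p φ D D' hD (AdjoinRoot.of (ff p D) a))
      rw [sg_of, bc_of, sg_of]
  exact RingHom.congr_fun h1 b

end Pool.Agent.Q224.CJ
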