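import Pool.Agent.Q224.CJ.Units

/-!
# Project CJ: the action of the Galois group on the coordinate ring, fixed points and descent of ideals (helper224)
-/

set_option autoImplicit false

namespace Pool.Agent.Q224.CJ

open Polynomial
open Pool.Agent.Q7.CJ

section co

set_option linter.unusedSectionVars false

variable {p : ℕ} [Fact p.Prime] {L : Type} [Field L]

theorem bc_mk {M : Type} [Field M] (φ : L →+* M) (D : L) (D' : M) (h : φ D = D') (r : L[X][X]) :
    bc p φ D D' h (AdjoinRoot.mk (ff p D) r) = AdjoinRoot.mk (ff p D') (r.map (mapRingHom φ)) := by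
  have h1 : (bc p φ D D' h).comp (AdjoinRoot.mk (ff p D)) =
      (AdjoinRoot.mk (ff p D')).comp (mapRingHom (mapRingHom φ)) := by
    apply Polynomial.ringHom_ext
    · intro a
      change bc p φ D D' h (AdjoinRoot.of (ff p D) a) = AdjoinRoot.mk (ff p D') ((C a).map (mapRingHom φ))
      rw [bc_of, map_C, AdjoinRoot.mk_C]
      rfl
    · change bc p φ D D' h (xx p D) = AdjoinRoot.mk (ff p D') ((X : L[X][X]).map (mapRingHom φ))
      rw [bc_xx, map_X, AdjoinRoot.mk_X]
      rfl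
  exact RingHom.congr_fun h1 r

theorem ff_map {M : Type} [Field M] (φ : L →+* M) (D : L) (D' : M) (h : φ D = D') :
    (ff p D).map (mapRingHom φ) = ff p D' := by
  unfold ff
  rw [Polynomial.map_sub, Polynomial.map_pow, map_X, map_C]
  simp only [coe_mapRingHom, Polynomial.map_add, Polynomial.map_mul, Polynomial.map_pow, map_X, map_C, h]

/-- the coefficient of `x^i y^j` -/
noncomputable def co (D : L) (i j : ℕ) (b : BR p D) : L :=
  ((AdjoinRoot.modByMonicHom (ff_monic p D) b).coeff i).coeff j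

theorem co_bc {M : Type} [Field M] (φ : L →+* M) (D : L) (D' : M) (h : φ D = D') (i j : ℕ) (b : BR p D) :
    co D' i j (bc p φ D D' h b) = φ (co D i j b) := by
  obtain ⟨r, rfl⟩ := AdjoinRoot.mk_surjective b
  unfold co
  rw [bc_mk, AdjoinRoot.modByMonicHom_mk, AdjoinRoot.modByMonicHom_mk, ← ff_map φ D D' h,
    ← map_modByMonic _ (ff_monic p D), coeff_map, coe_mapRingHom, coeff_map]

theorem co_cc (D : L) (i j : ℕ) (m : L) (b : BR p D) : co D i j (cc p D m * b) = m * co D i j b := by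
  unfold co
  have h : cc p D m * b = (C m : L[X]) • b := by
    rw [Algebra.smul_def]
    rfl
  rw [h, map_smul, coeff_smul, smul_eq_mul, coeff_C_mul]

theorem co_ext (D : L) (b b' : BR p D) (h : ∀ i j, co D i j b = co D i j b') : b = b' := by
  rw [← AdjoinRoot.mk_leftInverse (ff_monic p D) b, ← AdjoinRoot.mk_leftInverse (ff_monic p D) b']
  congr 1
  ext i j
  exact h i j

theorem co_zero (D : L) (i j : ℕ) : co (p := p) D i j 0 = 0 := by
  unfold co
  rw [map_zero, coeff_zero, coeff_zero]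

theorem exists_co (D : L) (b : BR p D) (hb : b ≠ 0) : ∃ i j, co D i j b ≠ 0 := by
  by_contra h
  push Not at h
  apply hb
  apply co_ext
  intro i j
  rw [h, co_zero]

theorem bc_inj {M : Type} [Field M] (φ : L →+* M) (D : L) (D' : M) (h : φ D = D') :
    Function.Injective (bc p φ D D' h) := by
  intro a b hab
  apply co_ext
  intro i j
  apply φ.injective
  rw [← co_bc φ D D' h, ← co_bc φ D D' h, hab]

theorem cc_mul (D a b : L) : cc p D (a * b) = cc p D a * cc p D b := by
  unfold cc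
  rw [C_mul, map_mul]

theorem cc_one (D : L) : cc p D 1 = 1 := by
  unfold cc
  rw [C_1, map_one]

theorem cc_zero (D : L) : cc p D 0 = 0 := by
  unfold cc
  rw [C_0, map_zero]

theorem cc_inv_mul (D a : L) (ha : a ≠ 0) : cc p D a⁻¹ * cc p D a = 1 := by
  rw [← cc_mul, inv_mul_cancel₀ ha, cc_one]

theorem cc_isUnit (D a : L) (ha : a ≠ 0) : IsUnit (cc p D a) :=
  IsUnit.of_mul_eq_one (cc p D a⁻¹) (by rw [mul_comm, cc_inv_mul D a ha])

theorem cc_natCast (D : L) (n : ℕ) : cc p D (n : L) = (n : BR p D) := by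
  unfold cc
  rw [map_natCast, map_natCast]

end co

section ga

variable {p : ℕ} [Fact p.Prime] [Fact (p ≠ 2)] {L M : Type} [Field L] [Field M] [Algebra L M]

theorem ga_xx (D : L) (τ : M ≃ₐ[L] M) : ga p D τ (xx p (algebraMap L M D)) = xx p (algebraMap L M D) := bc_xx _ _ _ _ _

theorem ga_yy (D : L) (τ : M ≃ₐ[L] M) : ga p D τ (yy p (algebraMap L M D)) = yy p (algebraMap L M D) := bc_yy _ _ _ _ _

theorem ga_cc (D : L) (τ : M ≃ₐ[L] M) (a : M) :
    ga p D τ (cc p (algebraMap L M D) a) = cc p (algebraMap L M D) (τ a) := bc_cc _ _ _ _ _ _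

theorem ga_bc (D : L) (τ : M ≃ₐ[L] M) (b : BR p D) :
    ga p D τ (bc p (algebraMap L M) D _ rfl b) = bc p (algebraMap L M) D _ rfl b := by
  have h : (ga p D τ).comp (bc p (algebraMap L M) D _ rfl) = bc p (algebraMap L M) D _ rfl := by
    apply hom_ext2
    · change ga p D τ (bc p (algebraMap L M) D _ rfl (xx p D)) = _
      rw [bc_xx, ga_xx]
    · change ga p D τ (bc p (algebraMap L M) D _ rfl (yy p D)) = _
      rw [bc_yy, ga_yy]
    · intro a
      change ga p D τ (bc p (algebraMap L M) D _ rfl (cc p D a)) = _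
      rw [bc_cc, ga_cc, AlgEquiv.commutes]
  exact RingHom.congr_fun h b

theorem ga_mul (D : L) (τ₁ τ₂ : M ≃ₐ[L] M) (b : BR p (algebraMap L M D)) :
    ga p D (τ₁ * τ₂) b = ga p D τ₁ (ga p D τ₂ b) := by
  have h : ga p D (τ₁ * τ₂) = (ga p D τ₁).comp (ga p D τ₂) := by
    apply hom_ext2
    · change _ = ga p D τ₁ (ga p D τ₂ (xx p _))
      rw [ga_xx, ga_xx, ga_xx]
    · change _ = ga p D τ₁ (ga p D τ₂ (yy p _))
      rw [ga_yy, ga_yy, ga_yy]
    · intro a
      change _ = ga p D τ₁ (ga p D τ₂ (cc p _ a))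
      rw [ga_cc, ga_cc, ga_cc, AlgEquiv.mul_apply]
  exact RingHom.congr_fun h b

theorem ga_one (D : L) (b : BR p (algebraMap L M D)) : ga p D (1 : M ≃ₐ[L] M) b = b := by
  have h : ga p D (1 : M ≃ₐ[L] M) = RingHom.id _ := by
    apply hom_ext2
    · rw [ga_xx]
      rfl
    · rw [ga_yy]
      rfl
    · intro a
      rw [ga_cc]
      rfl
  exact RingHom.congr_fun h b

omit [Fact (p ≠ 2)] in
theorem ga_inj (D : L) (τ : M ≃ₐ[L] M) : Function.Injective (ga p D τ) := bc_inj _ _ _ _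

omit [Fact (p ≠ 2)] in
theorem co_ga (D : L) (τ : M ≃ₐ[L] M) (i j : ℕ) (b : BR p (algebraMap L M D)) :
    co (algebraMap L M D) i j (ga p D τ b) = τ (co (algebraMap L M D) i j b) := co_bc _ _ _ _ i j b

theorem ga_sg (D ζ : L) (τ : M ≃ₐ[L] M) (h : (algebraMap L M ζ) ^ p = 1) (b : BR p (algebraMap L M D)) :
    ga p D τ (sg p (algebraMap L M D) (algebraMap L M ζ) h b) =
      sg p (algebraMap L M D) (algebraMap L M ζ) h (ga p D τ b) :=
  bc_sg _ _ _ _ _ _ (τ.commutes ζ) _ _ b

/-- the fixed points of the Galois group on the coordinate ring -/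
theorem fixed_bc [FiniteDimensional L M] [IsGalois L M] (D : L) (b : BR p (algebraMap L M D))
    (h : ∀ τ : M ≃ₐ[L] M, ga p D τ b = b) : ∃ b₀ : BR p D, bc p (algebraMap L M) D _ rfl b₀ = b := by
  have h1 : ∀ i j, co (algebraMap L M D) i j b ∈ Set.range (algebraMap L M) := by
    intro i j
    rw [IsGalois.mem_range_algebraMap_iff_fixed]
    intro τ
    rw [← co_ga, h]
  have h2 : (AdjoinRoot.modByMonicHom (ff_monic p (algebraMap L M D)) b) ∈
      lifts (mapRingHom (algebraMap L M)) := by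
    rw [lifts_iff_coeff_lifts]
    intro i
    have h3 : (AdjoinRoot.modByMonicHom (ff_monic p (algebraMap L M D)) b).coeff i ∈ lifts (algebraMap L M) := by
      rw [lifts_iff_coeff_lifts]
      intro j
      exact h1 i j
    rw [lifts_iff_set_range] at h3
    exact h3
  rw [lifts_iff_set_range] at h2
  obtain ⟨r, hr⟩ := h2
  refine ⟨AdjoinRoot.mk _ r, ?_⟩
  rw [bc_mk, hr]
  exact AdjoinRoot.mk_leftInverse (ff_monic p (algebraMap L M D)) b

/-- sums over the Galois group are fixed -/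
theorem sum_fixed [FiniteDimensional L M] [IsGalois L M] (D : L) (b : BR p (algebraMap L M D)) :
    ∃ b₀ : BR p D, bc p (algebraMap L M) D _ rfl b₀ = ∑ τ : M ≃ₐ[L] M, ga p D τ b := by
  apply fixed_bc
  intro σ
  rw [map_sum]
  simp_rw [← ga_mul]
  exact Fintype.sum_equiv (Equiv.mulLeft σ) _ _ (fun τ => rfl)

/-- products over the Galois group are fixed -/
theorem prod_fixed [FiniteDimensional L M] [IsGalois L M] (D : L) (b : BR p (algebraMap L M D)) :
    ∃ b₀ : BR p D, bc p (algebraMap L M) D _ rfl b₀ = ∏ τ : M ≃ₐ[L] M, ga p D τ b := by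
  apply fixed_bc
  intro σ
  rw [map_prod]
  simp_rw [← ga_mul]
  exact Fintype.prod_equiv (Equiv.mulLeft σ) _ _ (fun τ => rfl)

/-- descent of ideals -/
theorem comap_bc [CharZero L] [FiniteDimensional L M] [IsGalois L M] (D : L) (K : Ideal (BR p D)) (a : BR p D)
    (ha : bc p (algebraMap L M) D _ rfl a ∈ K.map (bc p (algebraMap L M) D _ rfl)) : a ∈ K := by
  have key : ∀ b ∈ K.map (bc p (algebraMap L M) D _ rfl), ∀ c : BR p (algebraMap L M D),
      ∃ k ∈ K, bc p (algebraMap L M) D _ rfl k = ∑ τ : M ≃ₐ[L] M, ga p D τ (c * b) := by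
    intro b hb
    refine Submodule.span_induction ?_ ?_ ?_ ?_ hb
    · rintro x ⟨k, hk, rfl⟩ c
      obtain ⟨c₀, hc₀⟩ := sum_fixed D c
      refine ⟨c₀ * k, K.mul_mem_left _ hk, ?_⟩
      rw [map_mul, hc₀, Finset.sum_mul]
      refine Finset.sum_congr rfl fun τ _ => ?_
      rw [map_mul, ga_bc]
    · intro c
      refine ⟨0, K.zero_mem, ?_⟩
      simp
    · intro x y _ _ hx hy c
      obtain ⟨k, hk, hk1⟩ := hx c
      obtain ⟨k', hk', hk1'⟩ := hy c
      refine ⟨k + k', K.add_mem hk hk', ?_⟩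
      rw [map_add, hk1, hk1', ← Finset.sum_add_distrib]
      refine Finset.sum_congr rfl fun τ _ => ?_
      rw [mul_add, map_add]
    · intro d x _ hx c
      obtain ⟨k, hk, hk1⟩ := hx (c * d)
      refine ⟨k, hk, ?_⟩
      rw [hk1]
      refine Finset.sum_congr rfl fun τ _ => ?_
      rw [smul_eq_mul, mul_assoc]
  obtain ⟨k, hk, hk1⟩ := key _ ha 1
  have h1 : ∑ τ : M ≃ₐ[L] M, ga p D τ (1 * bc p (algebraMap L M) D _ rfl a) =
      bc p (algebraMap L M) D _ rfl ((Fintype.card (M ≃ₐ[L] M) : BR p D) * a) := by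
    simp_rw [one_mul, ga_bc]
    rw [Finset.sum_const, map_mul, map_natCast, nsmul_eq_mul, Finset.card_univ]
  rw [h1] at hk1
  have h2 := bc_inj _ _ _ _ hk1
  set n := Fintype.card (M ≃ₐ[L] M) with hn
  have hn0 : (n : L) ≠ 0 := by
    rw [Ne, Nat.cast_eq_zero, hn]
    exact Fintype.card_ne_zero
  have h3 : a = cc p D (n : L)⁻¹ * k := by
    rw [h2, ← cc_natCast, ← mul_assoc, cc_inv_mul D _ hn0, one_mul]
  rw [h3]
  exact K.mul_mem_left _ hk

theorem map_bc_inj [CharZero L] [FiniteDimensional L M] [IsGalois L M] (D : L) (K K' : Ideal (BR p D))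
    (h : K.map (bc p (algebraMap L M) D _ rfl) = K'.map (bc p (algebraMap L M) D _ rfl)) : K = K' := by
  apply le_antisymm
  · intro a ha
    apply comap_bc (M := M) D K' a
    rw [← h]
    exact Ideal.mem_map_of_mem _ ha
  · intro a ha
    apply comap_bc (M := M) D K a
    rw [h]
    exact Ideal.mem_map_of_mem _ ha

/-- an element whose ideal is fixed by the Galois group is, up to a constant, defined over `L` -/
theorem semi_fixed [FiniteDimensional L M] [IsGalois L M] (D : L) (a : BR p (algebraMap L M D)) (ha : a ≠ 0)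
    (h : ∀ τ : M ≃ₐ[L] M, ∃ u v : BR p (algebraMap L M D), u * v = 1 ∧ ga p D τ a = u * a) :
    ∃ (m : M) (a₀ : BR p D), m ≠ 0 ∧ a₀ ≠ 0 ∧
      bc p (algebraMap L M) D _ rfl a₀ = cc p (algebraMap L M D) m * a := by
  obtain ⟨i, j, hc⟩ := exists_co _ a ha
  set c := co (algebraMap L M D) i j a with hcdef
  have hfix : ∀ τ : M ≃ₐ[L] M, ga p D τ (cc p (algebraMap L M D) c⁻¹ * a) = cc p (algebraMap L M D) c⁻¹ * a := by
    intro τ
    obtain ⟨u, v, huv, hu⟩ := h τ
    obtain ⟨m, hm, rfl⟩ := unit_cc _ u v huv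
    have h1 := congrArg (co (algebraMap L M D) i j) hu
    rw [co_ga, co_cc, ← hcdef] at h1
    rw [map_mul, ga_cc, hu, map_inv₀, h1, ← mul_assoc, ← cc_mul]
    congr 2
    field_simp
  obtain ⟨a₀, ha₀⟩ := fixed_bc D _ hfix
  refine ⟨c⁻¹, a₀, inv_ne_zero hc, ?_, ha₀⟩
  rintro rfl
  rw [map_zero] at ha₀
  rcases mul_eq_zero.1 ha₀.symm with h0 | h0
  · have h1 := cc_isUnit (p := p) (algebraMap L M D) c⁻¹ (inv_ne_zero hc)
    rw [h0] at h1
    exact not_isUnit_zero h1
  · exact ha h0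

end ga

end Pool.Agent.Q224.CJ
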