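import Mathlib

/-!
# The norm and the spectral norm in finite extensions of complete fields (helper224)
-/

set_option autoImplicit false

namespace Pool.Agent.Q224.CJ

open Polynomial IntermediateField

section

variable {K L : Type} [NontriviallyNormedField K] [IsUltrametricDist K] [CompleteSpace K] [Field L] [Algebra K L]
  [FiniteDimensional K L]

theorem norm_spectral (x : L) : ‖Algebra.norm K x‖ = spectralNorm K L x ^ Module.finrank K L := by
  have hx : IsIntegral K x := Algebra.IsIntegral.isIntegral x
  have h1 := Algebra.norm_eq_norm_adjoin K x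
  have h2 : Module.finrank K K⟮x⟯ * Module.finrank K⟮x⟯ L = Module.finrank K L := Module.finrank_mul_finrank K K⟮x⟯ L
  have h3 : Module.finrank K K⟮x⟯ = (minpoly K x).natDegree := IntermediateField.adjoin.finrank hx
  have h4 : ‖Algebra.norm K (AdjoinSimple.gen K x)‖ = ‖(minpoly K x).coeff 0‖ := by
    have h5 := Algebra.PowerBasis.norm_gen_eq_coeff_zero_minpoly (IntermediateField.adjoin.powerBasis hx)
    rw [IntermediateField.adjoin.powerBasis_gen, IntermediateField.minpoly_gen] at h5
    rw [h5, norm_mul, norm_pow, norm_neg, norm_one, one_pow, one_mul]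
  have h5 : spectralNorm K L x ^ (minpoly K x).natDegree = ‖(minpoly K x).coeff 0‖ := by
    rw [spectralNorm.spectralNorm_eq_norm_coeff_zero_rpow, ← Real.rpow_natCast, ← Real.rpow_mul (norm_nonneg _),
      one_div, inv_mul_cancel₀, Real.rpow_one]
    exact_mod_cast (minpoly.natDegree_pos hx).ne'
  rw [h1, norm_pow, h4, ← h5, ← pow_mul, ← h3, h2]

theorem norm_add_of_lt (x y : L) (h : ‖Algebra.norm K x‖ < ‖Algebra.norm K y‖) :
    ‖Algebra.norm K (x + y)‖ = ‖Algebra.norm K y‖ := by
  rw [norm_spectral, norm_spectral] at h
  rw [norm_spectral, norm_spectral]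
  have h1 : spectralNorm K L x < spectralNorm K L y := lt_of_pow_lt_pow_left₀ _ (spectralNorm_nonneg y) h
  letI : NormedField L := spectralNorm.normedField K L
  haveI : IsUltrametricDist L :=
    IsUltrametricDist.isUltrametricDist_of_isNonarchimedean_norm (isNonarchimedean_spectralNorm (K := K) (L := L))
  have h2 : ‖x + y‖ = ‖y‖ := by
    rw [add_comm]
    rw [IsUltrametricDist.norm_add_eq_max_of_norm_ne_norm (S := L) (x := y) (y := x) h1.ne']
    exact max_eq_left h1.le
  have h3 : spectralNorm K L (x + y) = spectralNorm K L y := h2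
  rw [h3]

end

end Pool.Agent.Q224.CJ
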