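import Pool.Agent.Q224.CJ.Spec
import Pool.Agent.Q7.CJ.Stm

/-!
# Project CJ, job TAME: the classes are unramified where `D` is (helper224)
-/

set_option autoImplicit false

namespace Pool.Agent.Q224.CJ

open Polynomial NumberField IsDedekindDomain WithZero
open Pool.Agent.Q7.CJ
open Pool.Agent.Q7.LK

section

variable {F : Type} [Field F] [NumberField F] (v : HeightOneSpectrum (𝓞 F))

theorem val_lt_iff (x y : v.adicCompletion F) :
    ‖x‖ < ‖y‖ ↔ (Valued.v x : WithZero (Multiplicative ℤ)) < Valued.v y := by
  exact Valued.toNormedField.norm_lt_iff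

theorem add_val {L : Type} [Field L] [Algebra (v.adicCompletion F) L] [FiniteDimensional (v.adicCompletion F) L]
    (x y : L) (h : (Valued.v (Algebra.norm (v.adicCompletion F) x) : WithZero (Multiplicative ℤ)) <
      Valued.v (Algebra.norm (v.adicCompletion F) y)) :
    (Valued.v (Algebra.norm (v.adicCompletion F) (x + y)) : WithZero (Multiplicative ℤ)) =
      Valued.v (Algebra.norm (v.adicCompletion F) y) := by
  rw [← val_lt_iff] at h
  letI : NontriviallyNormedField (v.adicCompletion F) :=
    Valued.toNontriviallyNormedField (L := v.adicCompletion F) (Γ₀ := WithZero (Multiplicative ℤ))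
  have h1 := norm_add_of_lt (K := v.adicCompletion F) x y h
  have h2 := (val_lt_iff v (Algebra.norm (v.adicCompletion F) (x + y)) (Algebra.norm (v.adicCompletion F) y))
  have h3 := (val_lt_iff v (Algebra.norm (v.adicCompletion F) y) (Algebra.norm (v.adicCompletion F) (x + y)))
  apply le_antisymm
  · rw [← not_lt, ← h3]
    exact not_lt.2 h1.le
  · rw [← not_lt, ← h2]
    exact not_lt.2 h1.ge

/-- the logarithm of the valuation -/
noncomputable def lg (z : v.adicCompletion F) : ℤ := WithZero.log (Valued.v z : WithZero (Multiplicative ℤ))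

theorem lg_mul {z w : v.adicCompletion F} (hz : z ≠ 0) (hw : w ≠ 0) : lg v (z * w) = lg v z + lg v w := by
  unfold lg
  rw [map_mul, WithZero.log_mul]
  · exact (Valuation.ne_zero_iff _).2 hz
  · exact (Valuation.ne_zero_iff _).2 hw

theorem lg_pow (z : v.adicCompletion F) (n : ℕ) : lg v (z ^ n) = n * lg v z := by
  unfold lg
  rw [map_pow, WithZero.log_pow]
  simp

theorem lg_eq {z w : v.adicCompletion F}
    (h : (Valued.v z : WithZero (Multiplicative ℤ)) = Valued.v w) : lg v z = lg v w := by
  unfold lg
  rw [h]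

theorem key {L : Type} [Field L] [Algebra (v.adicCompletion F) L] [FiniteDimensional (v.adicCompletion F) L]
    (p : ℕ) (hp : p.Prime) (hp2 : p ≠ 2) (d : v.adicCompletion F) (hd : d ≠ 0) (hpd : (p : ℤ) ∣ lg v d)
    (x y : L) (hy : y ≠ 0) (h : y ^ 2 + algebraMap (v.adicCompletion F) L d * y = x ^ p) :
    (p : ℤ) ∣ lg v (Algebra.norm (v.adicCompletion F) y) := by
  have hNd : Algebra.norm (v.adicCompletion F) (algebraMap (v.adicCompletion F) L d) = d ^ Module.finrank (v.adicCompletion F) L := Algebra.norm_algebraMap d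
  have hlgd : (p : ℤ) ∣ lg v (Algebra.norm (v.adicCompletion F) (algebraMap (v.adicCompletion F) L d)) := by
    rw [hNd, lg_pow]
    exact hpd.mul_left _
  have hdL : algebraMap (v.adicCompletion F) L d ≠ 0 := by
    rw [Ne, map_eq_zero_iff _ (algebraMap (v.adicCompletion F) L).injective]
    exact hd
  have hN0 : ∀ z : L, z ≠ 0 → Algebra.norm (v.adicCompletion F) z ≠ 0 := fun z hz => Algebra.norm_ne_zero_iff.2 hz
  by_cases hyd : y + algebraMap (v.adicCompletion F) L d = 0
  · have h1 : y = (-1) * algebraMap (v.adicCompletion F) L d := by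
      linear_combination hyd
    have h2 : Algebra.norm (v.adicCompletion F) y = (-1) ^ Module.finrank (v.adicCompletion F) L * Algebra.norm (v.adicCompletion F) (algebraMap (v.adicCompletion F) L d) := by
      rw [h1, map_mul]
      congr 1
      have h3 := Algebra.norm_algebraMap (S := L) (-1 : v.adicCompletion F)
      rw [map_neg, map_one] at h3
      exact h3
    have h3 : lg v (Algebra.norm (v.adicCompletion F) y) = lg v (Algebra.norm (v.adicCompletion F) (algebraMap (v.adicCompletion F) L d)) := by
      apply lg_eq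
      rw [h2, map_mul, map_pow, Valuation.map_neg, map_one, one_pow, one_mul]
    rw [h3]
    exact hlgd
  · have hprod : y * (y + algebraMap (v.adicCompletion F) L d) = x ^ p := by rw [← h]; ring
    have hx : x ≠ 0 := by
      rintro rfl
      rw [zero_pow hp.ne_zero] at hprod
      exact mul_ne_zero hy hyd hprod
    have h1 : lg v (Algebra.norm (v.adicCompletion F) y) + lg v (Algebra.norm (v.adicCompletion F) (y + algebraMap (v.adicCompletion F) L d)) =
        p * lg v (Algebra.norm (v.adicCompletion F) x) := by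
      rw [← lg_mul v (hN0 _ hy) (hN0 _ hyd), ← map_mul, hprod, map_pow, lg_pow]
    rcases lt_trichotomy (Valued.v (Algebra.norm (v.adicCompletion F) y) : WithZero (Multiplicative ℤ))
      (Valued.v (Algebra.norm (v.adicCompletion F) (algebraMap (v.adicCompletion F) L d))) with hlt | heq | hgt
    · have h2 := lg_eq v (add_val v _ _ hlt)
      rw [h2] at h1
      have h3 : lg v (Algebra.norm (v.adicCompletion F) y) = p * lg v (Algebra.norm (v.adicCompletion F) x) - lg v (Algebra.norm (v.adicCompletion F) (algebraMap (v.adicCompletion F) L d)) := by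
        linear_combination h1
      rw [h3]
      exact dvd_sub (dvd_mul_right _ _) hlgd
    · rw [lg_eq v heq]
      exact hlgd
    · have h2 := lg_eq v (add_val v _ _ hgt)
      rw [add_comm] at h2
      rw [h2] at h1
      have h3 : (p : ℤ) ∣ 2 * lg v (Algebra.norm (v.adicCompletion F) y) := ⟨lg v (Algebra.norm (v.adicCompletion F) x), by linear_combination h1⟩
      have hp' : Prime (p : ℤ) := Nat.prime_iff_prime_int.1 hp
      rcases hp'.dvd_or_dvd h3 with h4 | h4
      · exfalso
        have h5 : p ∣ 2 := by exact_mod_cast h4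
        exact hp2 ((Nat.prime_dvd_prime_iff_eq hp Nat.prime_two).1 h5)
      · exact h4

/-- the value of `y` at an ideal has an order divisible by `p` -/
theorem nm_dvd (hded : S_DED) (hnmm : S_NMM) (p : ℕ) [Fact p.Prime] [Fact (p ≠ 2)] (d : v.adicCompletion F) (hd : d ≠ 0)
    (hpd : (p : ℤ) ∣ lg v d) (I : Ideal (BR p d)) (hI : I ≠ ⊥) (hn : nm p d I ≠ 0) : (p : ℤ) ∣ lg v (nm p d I) := by
  have hinj : Function.Injective (algebraMap F (v.adicCompletion F)) := (algebraMap F (v.adicCompletion F)).injective
  haveI : CharZero (v.adicCompletion F) := charZero_of_injective_algebraMap hinj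
  obtain ⟨hD, hfin⟩ := hded p (v.adicCompletion F) d hd
  obtain ⟨hmul, htop, hrest⟩ := hnmm p (v.adicCompletion F) d hd
  revert hI hn
  induction I using UniqueFactorizationMonoid.induction_on_prime with
  | h₁ => intro hI; exact absurd rfl hI
  | h₂ J hJ =>
    intro _ _
    rw [Ideal.isUnit_iff] at hJ
    rw [hJ, htop]
    unfold lg
    simp
  | h₃ J P hJ hP ih =>
    intro hI hn
    have hP0 : P ≠ ⊥ := hP.ne_zero
    have hJ0 : J ≠ ⊥ := hJ
    rw [hmul P J hP0 hJ0] at hn ⊢
    have hnP : nm p d P ≠ 0 := left_ne_zero_of_mul hn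
    have hnJ : nm p d J ≠ 0 := right_ne_zero_of_mul hn
    rw [lg_mul v hnP hnJ]
    refine dvd_add ?_ (ih hJ0 hnJ)
    haveI hPp : P.IsPrime := Ideal.isPrime_of_prime hP
    haveI hPm : P.IsMaximal := hPp.isMaximal hP0
    letI : Field (BR p d ⧸ P) := Ideal.Quotient.field P
    haveI := hfin P hP0
    have hy0 : (Ideal.Quotient.mk P (yy p d)) ≠ 0 := by
      intro h0
      apply hnP
      unfold nm
      rw [h0]
      exact Algebra.norm_zero
    refine key v p Fact.out Fact.out d hd hpd (Ideal.Quotient.mk P (xx p d)) (Ideal.Quotient.mk P (yy p d)) hy0 ?_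
    have h1 := congrArg (Ideal.Quotient.mk P) (curve_eq p d)
    rw [map_add, map_mul, map_pow, map_pow] at h1
    exact h1

end

theorem tame' (hded : S_DED) (hnmm : S_NMM) : S_TAME := by
  intro p _ _ F _ _ v D a hD hv hA
  obtain ⟨ha, I, hI, s, hs, hnm⟩ := hA
  have hinj : Function.Injective (algebraMap F (v.adicCompletion F)) := (algebraMap F (v.adicCompletion F)).injective
  have hDK : (D : v.adicCompletion F) ≠ 0 := by
    change algebraMap F (v.adicCompletion F) D ≠ 0
    rw [Ne, map_eq_zero_iff _ hinj]
    exact hD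
  have hval : ∀ b : F, lg v (b : v.adicCompletion F) = WithZero.log (v.valuation F b) := by
    intro b
    unfold lg
    rw [HeightOneSpectrum.valuedAdicCompletion_eq_valuation']
  have hvl : ∀ b : F, vl p v b = 0 ↔ (p : ℤ) ∣ lg v (b : v.adicCompletion F) := by
    intro b
    rw [hval]
    unfold vl
    rw [neg_eq_zero, ZMod.intCast_zmod_eq_zero_iff_dvd]
  rw [hvl] at hv ⊢
  have hn0 : nm p (D : v.adicCompletion F) I ≠ 0 := by
    rw [hnm]
    exact mul_ne_zero ha (pow_ne_zero p hs)
  have h1 := nm_dvd v hded hnmm p (D : v.adicCompletion F) hDK hv I hI hn0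
  rw [hnm, lg_mul v ha (pow_ne_zero p hs), lg_pow] at h1
  exact (Int.dvd_iff_dvd_of_dvd_add h1).2 (dvd_mul_right _ _)

theorem tame (_ : S_BAS) (hded : S_DED) (hnmm : S_NMM) : S_TAME := tame' hded hnmm

end Pool.Agent.Q224.CJ
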