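import Pool.Agent.Q224.CJ.Sim

/-!
# Project CJ: the units of the coordinate ring are the nonzero constants (helper224)
-/

set_option autoImplicit false

namespace Pool.Agent.Q224.CJ

open Polynomial
open Pool.Agent.Q7.CJ

section

variable {p : ℕ} {L : Type} [Field L]

theorem hom_ext2 {S : Type} [CommRing S] [Fact p.Prime] [Fact (p ≠ 2)] {D : L} {f g : BR p D →+* S}
    (h1 : f (xx p D) = g (xx p D)) (h2 : f (yy p D) = g (yy p D)) (h3 : ∀ a : L, f (cc p D a) = g (cc p D a)) :
    f = g := by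
  apply hom_ext h1
  intro a
  have h4 : f.comp (AdjoinRoot.of (ff p D)) = g.comp (AdjoinRoot.of (ff p D)) := by
    apply Polynomial.ringHom_ext
    · intro a
      exact h3 a
    · exact h2
  exact RingHom.congr_fun h4 a

/-- the equation of the curve as a polynomial in `y` over `L[x]` -/
noncomputable def qq (p : ℕ) (D : L) : L[X][X] := X ^ 2 + C (C D) * X - C (X ^ p)

theorem qq_natDegree (D : L) : (qq p D).natDegree = 2 := by
  unfold qq
  compute_degree!

theorem qq_monic (D : L) : (qq p D).Monic := by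
  unfold qq
  monicity!

theorem qq_eval₂ {S : Type} [CommRing S] (i : L[X] →+* S) (a : S) (D : L) :
    (qq p D).eval₂ i a = a ^ 2 + i (C D) * a - i X ^ p := by
  unfold qq
  rw [eval₂_sub, eval₂_add, eval₂_mul, eval₂_X_pow, eval₂_C, eval₂_X, eval₂_C, map_pow]

theorem qq_root (D : L) : AdjoinRoot.root (qq p D) ^ 2 + AdjoinRoot.of (qq p D) (C D) * AdjoinRoot.root (qq p D) =
    AdjoinRoot.of (qq p D) X ^ p := by
  have h := AdjoinRoot.eval₂_root (qq p D)
  rw [qq_eval₂, sub_eq_zero] at h
  exact h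

/-- from `L[x, y] / (x^p - y² - D y)` over `L[y]` to the same ring over `L[x]` -/
noncomputable def phi (D : L) : BR p D →+* AdjoinRoot (qq p D) :=
  AdjoinRoot.lift (eval₂RingHom ((AdjoinRoot.of (qq p D)).comp C) (AdjoinRoot.root (qq p D)))
    (AdjoinRoot.of (qq p D) X) (by
      rw [eval₂_ff, ← qq_root, sub_eq_zero]
      simp [coe_eval₂RingHom, eval₂_add, eval₂_mul, eval₂_C, eval₂_X])

noncomputable def psi (D : L) : AdjoinRoot (qq p D) →+* BR p D :=
  AdjoinRoot.lift (eval₂RingHom ((AdjoinRoot.of (ff p D)).comp C) (xx p D)) (yy p D) (by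
      rw [qq_eval₂, sub_eq_zero]
      have h := curve_eq p D
      simp only [coe_eval₂RingHom, eval₂_C, eval₂_X]
      exact h)

theorem phi_xx (D : L) : phi D (xx p D) = AdjoinRoot.of (qq p D) X := by
  unfold phi xx
  exact AdjoinRoot.lift_root _

theorem phi_yy (D : L) : phi D (yy p D) = AdjoinRoot.root (qq p D) := by
  unfold phi yy
  rw [AdjoinRoot.lift_of, coe_eval₂RingHom, eval₂_X]

theorem phi_cc (D a : L) : phi D (cc p D a) = AdjoinRoot.of (qq p D) (C a) := by
  unfold phi cc
  rw [AdjoinRoot.lift_of, coe_eval₂RingHom, eval₂_C]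
  rfl

theorem psi_of_X (D : L) : psi D (AdjoinRoot.of (qq p D) X) = xx p D := by
  unfold psi
  rw [AdjoinRoot.lift_of, coe_eval₂RingHom, eval₂_X]

theorem psi_root (D : L) : psi D (AdjoinRoot.root (qq p D)) = yy p D := by
  unfold psi
  exact AdjoinRoot.lift_root _

theorem psi_of_C (D a : L) : psi D (AdjoinRoot.of (qq p D) (C a)) = cc p D a := by
  unfold psi cc
  rw [AdjoinRoot.lift_of, coe_eval₂RingHom, eval₂_C]
  rfl

theorem psi_phi [Fact p.Prime] [Fact (p ≠ 2)] (D : L) (b : BR p D) : psi D (phi D b) = b := by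
  have h : (psi D).comp (phi D) = RingHom.id (BR p D) := by
    apply hom_ext2
    · change psi D (phi D (xx p D)) = xx p D
      rw [phi_xx, psi_of_X]
    · change psi D (phi D (yy p D)) = yy p D
      rw [phi_yy, psi_root]
    · intro a
      change psi D (phi D (cc p D a)) = cc p D a
      rw [phi_cc, psi_of_C]
  exact RingHom.congr_fun h b

theorem qq_repr (D : L) (z : AdjoinRoot (qq p D)) : ∃ a b : L[X],
    z = AdjoinRoot.of (qq p D) a + AdjoinRoot.of (qq p D) b * AdjoinRoot.root (qq p D) := by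
  obtain ⟨r, rfl⟩ := AdjoinRoot.mk_surjective z
  have h0 : AdjoinRoot.mk (qq p D) r = AdjoinRoot.mk (qq p D) (r %ₘ qq p D) := by
    rw [AdjoinRoot.mk_eq_mk, modByMonic_eq_sub_mul_div, sub_sub_cancel]
    exact dvd_mul_right _ _
  have h1 : (r %ₘ qq p D).degree ≤ 1 := by
    have h := natDegree_modByMonic_lt r (qq_monic (p := p) D) (by
      intro h1
      have h2 := qq_natDegree (p := p) D
      rw [h1, natDegree_one] at h2
      omega)
    rw [qq_natDegree] at h
    have h2 : (r %ₘ qq p D).natDegree ≤ 1 := by omega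
    exact degree_le_of_natDegree_le h2
  refine ⟨(r %ₘ qq p D).coeff 0, (r %ₘ qq p D).coeff 1, ?_⟩
  rw [h0]
  have h2 := eq_X_add_C_of_degree_le_one h1
  conv_lhs => rw [h2]
  rw [map_add, map_mul, AdjoinRoot.mk_C, AdjoinRoot.mk_C, AdjoinRoot.mk_X, add_comm]

theorem qq_indep (D : L) (a b : L[X])
    (h : AdjoinRoot.of (qq p D) a + AdjoinRoot.of (qq p D) b * AdjoinRoot.root (qq p D) = 0) : a = 0 ∧ b = 0 := by
  have h1 : AdjoinRoot.mk (qq p D) (C b * X + C a) = 0 := by
    rw [map_add, map_mul, AdjoinRoot.mk_C, AdjoinRoot.mk_C, AdjoinRoot.mk_X, add_comm]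
    exact h
  rw [AdjoinRoot.mk_eq_zero] at h1
  have h2 : (C b * X + C a : L[X][X]) = 0 := by
    by_contra h0
    have h3 := natDegree_le_of_dvd h1 h0
    rw [qq_natDegree] at h3
    have h4 : (C b * X + C a : L[X][X]).natDegree ≤ 1 := natDegree_linear_le
    omega
  constructor
  · have h3 := congrArg (fun q => coeff q 0) h2
    simpa using h3
  · have h3 := congrArg (fun q => coeff q 1) h2
    simpa using h3

theorem deg_aux (hodd : Odd p) (D : L) (a b : L[X])
    (h : (a ^ 2 - C D * a * b - b ^ 2 * X ^ p).natDegree = 0) : b = 0 := by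
  by_contra hb
  have hp : 0 < p := hodd.pos
  have hd1 : (b ^ 2 * X ^ p : L[X]).natDegree = 2 * b.natDegree + p := by
    rw [natDegree_mul (pow_ne_zero 2 hb) (pow_ne_zero p X_ne_zero), natDegree_pow, natDegree_X_pow]
  have hd3 : (C D * a * b : L[X]).natDegree ≤ a.natDegree + b.natDegree :=
    le_trans natDegree_mul_le (Nat.add_le_add_right (natDegree_C_mul_le _ _) _)
  by_cases hab : a.natDegree ≤ b.natDegree
  · have hd2 : (a ^ 2 - C D * a * b : L[X]).natDegree ≤ 2 * b.natDegree := by
      refine le_trans (natDegree_sub_le _ _) (max_le ?_ ?_)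
      · rw [natDegree_pow]
        omega
      · omega
    have hd4 : (a ^ 2 - C D * a * b - b ^ 2 * X ^ p : L[X]).natDegree = (b ^ 2 * X ^ p : L[X]).natDegree := by
      apply natDegree_sub_eq_right_of_natDegree_lt
      omega
    omega
  · push Not at hab
    have hd2 : (a ^ 2 - C D * a * b : L[X]).natDegree = 2 * a.natDegree := by
      rw [natDegree_sub_eq_left_of_natDegree_lt, natDegree_pow]
      rw [natDegree_pow]
      omega
    obtain ⟨m, hm⟩ := hodd
    rcases lt_or_ge (2 * a.natDegree) (2 * b.natDegree + p) with hlt | hge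
    · have hd4 : (a ^ 2 - C D * a * b - b ^ 2 * X ^ p : L[X]).natDegree = (b ^ 2 * X ^ p : L[X]).natDegree := by
        apply natDegree_sub_eq_right_of_natDegree_lt
        omega
      omega
    · have hd4 : (a ^ 2 - C D * a * b - b ^ 2 * X ^ p : L[X]).natDegree = (a ^ 2 - C D * a * b : L[X]).natDegree := by
        apply natDegree_sub_eq_left_of_natDegree_lt
        omega
      omega

/-- the units of the coordinate ring are the nonzero constants -/
theorem unit_cc [Fact p.Prime] [Fact (p ≠ 2)] (D : L) (u v : BR p D) (huv : u * v = 1) :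
    ∃ m : L, m ≠ 0 ∧ u = cc p D m := by
  have hodd : Odd p := (Fact.out (p := p.Prime)).odd_of_ne_two Fact.out
  obtain ⟨a, b, hu⟩ := qq_repr D (phi D u)
  obtain ⟨c, d, hv⟩ := qq_repr D (phi D v)
  have h1 : phi D u * phi D v = 1 := by rw [← map_mul, huv, map_one]
  rw [hu, hv] at h1
  have hr := qq_root (p := p) D
  have h2 : AdjoinRoot.of (qq p D) (a * c + b * d * X ^ p - 1) +
      AdjoinRoot.of (qq p D) (a * d + b * c - C D * b * d) * AdjoinRoot.root (qq p D) = 0 := by
    rw [map_sub, map_add, map_sub, map_add, map_mul, map_mul, map_mul, map_mul, map_mul, map_mul, map_mul, map_pow,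
      map_one, ← hr]
    linear_combination h1
  obtain ⟨h3, h4⟩ := qq_indep D _ _ h2
  have h5 : (a ^ 2 - C D * a * b - b ^ 2 * X ^ p) * (c ^ 2 - C D * c * d - d ^ 2 * X ^ p) = 1 := by
    linear_combination (a * c + b * d * X ^ p + 1 - C D * (a * d + b * c - C D * b * d)) * h3 +
      (- C D - (a * d + b * c - C D * b * d) * X ^ p) * h4
  have h6 : (a ^ 2 - C D * a * b - b ^ 2 * X ^ p).natDegree = 0 := by
    have hu : IsUnit (a ^ 2 - C D * a * b - b ^ 2 * X ^ p) := IsUnit.of_mul_eq_one _ h5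
    exact natDegree_eq_zero_of_isUnit hu
  have hb : b = 0 := deg_aux hodd D a b h6
  rw [hb] at h6
  have h7 : a.natDegree = 0 := by
    have h8 : (a ^ 2 - C D * a * 0 - 0 ^ 2 * X ^ p : L[X]) = a ^ 2 := by ring
    rw [h8, natDegree_pow] at h6
    omega
  obtain ⟨m, rfl⟩ := natDegree_eq_zero.1 h7
  have hum : u = cc p D m := by
    have h8 := psi_phi D u
    rw [hu, hb, map_zero, zero_mul, add_zero, psi_of_C] at h8
    exact h8.symm
  refine ⟨m, ?_, hum⟩
  rintro rfl
  rw [hum] at huv
  unfold cc at huv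
  rw [C_0, map_zero, zero_mul] at huv
  exact zero_ne_one huv

end

end Pool.Agent.Q224.CJ
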